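import Pool.Agent.Lib_helper60.DD.Defs
import Pool.Agent.Lib_helper96.DD_M1

/-!
# MP_a2cbb7_co, block M5: the lacunary lemma.
-/

set_option autoImplicit false

namespace Pool.Agent.DD

open Finset Classical

noncomputable section

namespace M5

/-- the covering statement (block M1 of the project, proved in its own file) -/
def CoverSum : Prop := ∀ (S : Finset ℂ) (c : ℂ) (L s : ℝ) (_hs : 0 < s) (_hS : ∀ x ∈ S, dist x c ≤ L),
    ∑ x ∈ S, (1:ℝ) / ((S.filter (fun y => dist y x ≤ s)).card : ℝ) ≤ (3 * L / s + 2) ^ 2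

/-! ### simple facts on `M` -/

theorem M_mono5 (A : Finset ℂ) (x : ℂ) {r r' : ℝ} (h : r ≤ r') : M A x r ≤ M A x r' := by
  unfold M
  apply card_le_card
  intro a ha
  simp only [mem_filter] at ha ⊢
  exact ⟨ha.1, ha.2.trans h⟩

theorem M_le_card5 (A : Finset ℂ) (x : ℂ) (r : ℝ) : M A x r ≤ A.card := card_filter_le _ _

theorem M_ball5 (A : Finset ℂ) (x y : ℂ) {r r' : ℝ} (h : dist x y + r ≤ r') : M A x r ≤ M A y r' := by
  unfold M
  apply card_le_card
  intro a ha
  simp only [mem_filter] at ha ⊢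
  refine ⟨ha.1, ?_⟩
  have := dist_triangle a x y
  linarith [ha.2]

theorem one_le_M5 (A : Finset ℂ) (x : ℂ) (hx : x ∈ A) {r : ℝ} (hr : 0 ≤ r) : 1 ≤ M A x r := by
  unfold M
  apply card_pos.mpr
  exact ⟨x, by simp [hx, hr]⟩

/-- covering bound in cardinality form -/
theorem cover_card5 (hC : CoverSum) (S : Finset ℂ) (c : ℂ) (L s m : ℝ) (hs : 0 < s) (hm : 0 ≤ m)
    (hS : ∀ x ∈ S, dist x c ≤ L)
    (hm' : ∀ x ∈ S, ((S.filter (fun y => dist y x ≤ s)).card : ℝ) ≤ m) :
    (S.card : ℝ) ≤ m * (3 * L / s + 2) ^ 2 := by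
  have h1 := hC S c L s hs hS
  have h2 : (S.card : ℝ) ≤ m * ∑ x ∈ S, (1:ℝ) / ((S.filter (fun y => dist y x ≤ s)).card : ℝ) := by
    rw [mul_sum, card_eq_sum_ones]
    push_cast
    apply sum_le_sum
    intro x hx
    have hpos : (0:ℝ) < ((S.filter (fun y => dist y x ≤ s)).card : ℝ) := by
      have : 0 < (S.filter (fun y => dist y x ≤ s)).card := card_pos.mpr ⟨x, by simp [hx, hs.le]⟩
      exact_mod_cast this
    have := hm' x hx
    rw [mul_one_div, le_div_iff₀ hpos]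
    linarith
  exact h2.trans (mul_le_mul_of_nonneg_left h1 hm)

/-! ### the smallest radius -/

theorem rho_nonneg5 (A : Finset ℂ) (x : ℂ) (m : ℝ) : 0 ≤ rho A x m := by
  unfold rho
  exact Real.sInf_nonneg (fun r hr => hr.1)

theorem lt_rho5 (A : Finset ℂ) (x : ℂ) (m : ℝ) (hm : 0 < m) (r : ℝ) (hr : r < rho A x m) :
    (M A x r : ℝ) < m := by
  by_contra hcon
  push Not at hcon
  rcases lt_or_ge r 0 with h0 | h0
  · have : M A x r = 0 := by
      unfold M
      rw [card_eq_zero, filter_eq_empty_iff]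
      intro a _ h
      have := dist_nonneg (x := a) (y := x)
      linarith
    rw [this] at hcon
    simp at hcon
    linarith
  · have hmem : r ∈ {r : ℝ | 0 ≤ r ∧ m ≤ (M A x r : ℝ)} := ⟨h0, hcon⟩
    have : rho A x m ≤ r := csInf_le ⟨0, fun y hy => hy.1⟩ hmem
    linarith

/-- the closed disc of radius `rho` has less than `m + 3` points -/
theorem M_rho5 (A : Finset ℂ) (hA : NC A) (x : ℂ) (m : ℝ) (hm : 0 < m) :
    (M A x (rho A x m) : ℝ) < m + 3 := by
  set ρ := rho A x m with hρ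
  have hopen : ((A.filter (fun a => dist a x < ρ)).card : ℝ) < m := by
    rcases (A.filter (fun a => dist a x < ρ)).eq_empty_or_nonempty with h | h
    · rw [h]; simpa using hm
    · obtain ⟨b, hb, hmax⟩ := exists_max_image _ (fun a => dist a x) h
      rw [mem_filter] at hb
      have h1 := lt_rho5 A x m hm (dist b x) hb.2
      have h2 : (A.filter (fun a => dist a x < ρ)).card ≤ M A x (dist b x) := by
        unfold M
        apply card_le_card
        intro a ha
        have := hmax a ha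
        rw [mem_filter] at ha ⊢
        exact ⟨ha.1, this⟩
      have h3 : ((A.filter (fun a => dist a x < ρ)).card : ℝ) ≤ M A x (dist b x) := by exact_mod_cast h2
      linarith
  have hsplit : M A x ρ ≤ (A.filter (fun a => dist a x < ρ)).card + (A.filter (fun a => dist a x = ρ)).card := by
    unfold M
    refine le_trans (card_le_card ?_) (card_union_le _ _)
    intro a ha
    rw [mem_filter] at ha
    rw [mem_union, mem_filter, mem_filter]
    rcases lt_or_eq_of_le ha.2 with h | h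
    · exact Or.inl ⟨ha.1, h⟩
    · exact Or.inr ⟨ha.1, h⟩
  have h3 := hA x ρ
  have h4 : (M A x ρ : ℝ) ≤ ((A.filter (fun a => dist a x < ρ)).card : ℝ) +
      ((A.filter (fun a => dist a x = ρ)).card : ℝ) := by exact_mod_cast hsplit
  have h5 : ((A.filter (fun a => dist a x = ρ)).card : ℝ) ≤ 3 := by exact_mod_cast h3
  linarith

/-! ### the scale attached to a lacunary pair -/

theorem lacA (A : Finset ℂ) (hA : NC A) (x : ℂ) (R Q η m : ℝ) (hη : 0 < η) (hη1 : η ≤ 1)
    (hQ : 100 / η ≤ Q) (hR : R = Q ^ 10) (hm : 3 ≤ m) (hlac : Lac A R x m) :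
    ∃ (k : ℕ) (s : ℝ), 0 < s ∧ R * Q ^ k * m ≤ (M A x s : ℝ) ∧
      (M A x (2 * s) : ℝ) ≤ Q * (M A x s : ℝ) ∧
      (M A x (s / 2) : ℝ) ≤ η / 8 * (M A x s : ℝ) ∧
      ∀ r : ℝ, r < s / 2 ^ (k + 1) → (M A x r : ℝ) < m := by
  set ρ := rho A x m with hρ
  have hQ100 : 100 ≤ Q := by
    have : 100 ≤ 100 / η := by rw [le_div_iff₀ hη]; linarith
    linarith
  have hQη : 100 ≤ η * Q := by
    rw [div_le_iff₀ hη] at hQ
    linarith
  have hR1 : Q ≤ R := by
    rw [hR]
    calc Q = Q ^ 1 := (pow_one Q).symm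
      _ ≤ Q ^ 10 := pow_le_pow_right₀ (by linarith) (by norm_num)
  have hlac' : R * m ≤ (M A x (2 * ρ) : ℝ) := hlac
  have hρ0 : 0 < ρ := by
    rcases (rho_nonneg5 A x m).lt_or_eq with h | h
    · exact h
    · exfalso
      have h0 : ρ = 0 := h.symm
      rw [h0, mul_zero] at hlac'
      have h1 : M A x 0 ≤ 1 := by
        unfold M
        rw [card_le_one]
        intro a ha b hb
        rw [mem_filter] at ha hb
        have h1 : a = x := dist_le_zero.mp ha.2
        have h2 : b = x := dist_le_zero.mp hb.2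
        rw [h1, h2]
      have h2 : (M A x 0 : ℝ) ≤ 1 := by exact_mod_cast h1
      nlinarith
  set f : ℕ → ℝ := fun k => (M A x (2 ^ (k + 1) * ρ) : ℝ) with hf
  have hf0 : R * m ≤ f 0 := by simpa [hf] using hlac'
  have hfpos : 0 < f 0 := by nlinarith
  have hex : ∃ k, f (k + 1) ≤ Q * f k := by
    by_contra hcon
    push Not at hcon
    have hgrow : ∀ k, Q ^ k * f 0 ≤ f k := by
      intro k
      induction k with
      | zero => simp
      | succ k ih =>
        have := hcon k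
        calc Q ^ (k + 1) * f 0 = Q * (Q ^ k * f 0) := by ring
          _ ≤ Q * f k := by apply mul_le_mul_of_nonneg_left ih; linarith
          _ ≤ f (k + 1) := this.le
    obtain ⟨k, hk⟩ := pow_unbounded_of_one_lt ((A.card : ℝ) / f 0) (show 1 < Q by linarith)
    have h1 := hgrow k
    have h2 : f k ≤ A.card := by
      simp only [hf]
      exact_mod_cast M_le_card5 A x _
    rw [div_lt_iff₀ hfpos] at hk
    linarith
  set k := Nat.find hex with hk
  have hspec : f (k + 1) ≤ Q * f k := Nat.find_spec hex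
  have hmin : ∀ i < k, Q * f i < f (i + 1) := fun i hi => by
    have := Nat.find_min hex hi
    push Not at this
    exact this
  have hgrow : ∀ i ≤ k, Q ^ i * (R * m) ≤ f i := by
    intro i
    induction i with
    | zero => intro _; simpa using hf0
    | succ i ih =>
      intro hi
      have h1 := ih (by omega)
      have h2 := hmin i (by omega)
      calc Q ^ (i + 1) * (R * m) = Q * (Q ^ i * (R * m)) := by ring
        _ ≤ Q * f i := by apply mul_le_mul_of_nonneg_left h1; linarith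
        _ ≤ f (i + 1) := h2.le
  have hs2 : ∀ j : ℕ, 2 ^ (j + 1) * ρ / 2 = 2 ^ j * ρ := by intro j; rw [pow_succ]; ring
  refine ⟨k, 2 ^ (k + 1) * ρ, by positivity, ?_, ?_, ?_, ?_⟩
  · have := hgrow k le_rfl
    calc R * Q ^ k * m = Q ^ k * (R * m) := by ring
      _ ≤ f k := this
      _ = _ := rfl
  · have : 2 * (2 ^ (k + 1) * ρ) = 2 ^ (k + 1 + 1) * ρ := by ring
    rw [this]
    exact hspec
  · rw [hs2]
    rcases Nat.eq_zero_or_pos k with h0 | hpos
    · rw [h0]
      have h1 := M_rho5 A hA x m (by linarith)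
      have h2 : (M A x (2 ^ 0 * ρ) : ℝ) < m + 3 := by simpa using h1
      have h3 : R * m ≤ (M A x (2 ^ (0 + 1) * ρ) : ℝ) := hf0
      have h4 : 16 ≤ η * R := by nlinarith
      have h5 : η * (R * m) ≤ η * (M A x (2 ^ (0 + 1) * ρ) : ℝ) := mul_le_mul_of_nonneg_left h3 hη.le
      have h6 : 16 * m ≤ η * R * m := mul_le_mul_of_nonneg_right h4 (by linarith)
      have h7 : (M A x (2 ^ 0 * ρ) : ℝ) ≤ η / 8 * (M A x (2 ^ (0 + 1) * ρ) : ℝ) := by
        generalize (M A x (2 ^ (0 + 1) * ρ) : ℝ) = u at *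
        generalize (M A x (2 ^ 0 * ρ) : ℝ) = v at *
        have h8 : η * (R * m) = η * R * m := by ring
        rw [h8] at h5
        linarith
      exact h7
    · obtain ⟨k', hk'⟩ : ∃ k', k = k' + 1 := ⟨k - 1, by omega⟩
      rw [hk']
      have h1 := hmin k' (by omega)
      have h2 : (M A x (2 ^ (k' + 1) * ρ) : ℝ) = f k' := rfl
      have h3 : (M A x (2 ^ (k' + 1 + 1) * ρ) : ℝ) = f (k' + 1) := rfl
      rw [h2, h3]
      have h4 : 0 ≤ f k' := by simp only [hf]; positivity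
      have h5 : 8 * f k' ≤ η * Q * f k' := by nlinarith
      have h6 : η * (Q * f k') ≤ η * f (k' + 1) := mul_le_mul_of_nonneg_left h1.le hη.le
      nlinarith
  · intro r hr
    have h1 : (2:ℝ) ^ (k + 1) * ρ / 2 ^ (k + 1) = ρ := by
      field_simp
    rw [h1] at hr
    exact lt_rho5 A x m (by linarith) r hr

/-- many good `y` for a lacunary pair -/
theorem lacB (hC : CoverSum) (A E₁ : Finset ℂ) (hE : E₁ ⊆ A) (x : ℂ) (s η : ℝ) (hη : 0 < η) (hs : 0 < s)
    (hd : η * (M A x s : ℝ) ≤ ((E₁.filter (fun y => dist y x ≤ s)).card : ℝ))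
    (h2 : (M A x (s / 2) : ℝ) ≤ η / 8 * (M A x s : ℝ)) :
    η / 2 * (M A x s : ℝ) ≤ ((E₁.filter (fun y => s / 2 < dist x y ∧ dist x y ≤ s ∧
      η / 20000 * (M A x s : ℝ) ≤ (M A y (s / 16) : ℝ))).card : ℝ) := by
  set G := E₁.filter (fun y => s / 2 < dist x y ∧ dist x y ≤ s ∧
      η / 20000 * (M A x s : ℝ) ≤ (M A y (s / 16) : ℝ)) with hG
  set B := E₁.filter (fun y => dist y x ≤ s ∧ (M A y (s / 16) : ℝ) < η / 20000 * (M A x s : ℝ)) with hB
  have hsub : E₁.filter (fun y => dist y x ≤ s) ⊆ (G ∪ B) ∪ A.filter (fun y => dist y x ≤ s / 2) := by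
    intro y hy
    rw [mem_filter] at hy
    rw [mem_union, mem_union]
    by_cases h1 : dist y x ≤ s / 2
    · right; rw [mem_filter]; exact ⟨hE hy.1, h1⟩
    · left
      push Not at h1
      by_cases h3 : (M A y (s / 16) : ℝ) < η / 20000 * (M A x s : ℝ)
      · right; rw [hB, mem_filter]; exact ⟨hy.1, hy.2, h3⟩
      · left; push Not at h3; rw [hG, mem_filter, dist_comm x y]; exact ⟨hy.1, h1, hy.2, h3⟩
  have h3 : ((E₁.filter (fun y => dist y x ≤ s)).card : ℝ) ≤ (G.card : ℝ) + B.card + M A x (s / 2) := by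
    have h4 : (E₁.filter (fun y => dist y x ≤ s)).card ≤ G.card + B.card + M A x (s / 2) := by
      refine (card_le_card hsub).trans ((card_union_le _ _).trans ?_)
      have := card_union_le G B
      unfold M
      omega
    exact_mod_cast h4
  have h4 : (B.card : ℝ) ≤ η / 20000 * (M A x s : ℝ) * (3 * s / (s / 16) + 2) ^ 2 := by
    apply cover_card5 hC B x s (s / 16) _ (by positivity) (by positivity)
    · intro y hy
      rw [hB, mem_filter] at hy
      exact hy.2.1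
    · intro y hy
      have hy' := hy
      rw [hB, mem_filter] at hy'
      refine le_trans ?_ hy'.2.2.le
      have : (B.filter (fun z => dist z y ≤ s / 16)).card ≤ M A y (s / 16) := by
        unfold M
        apply card_le_card
        intro z hz
        rw [mem_filter] at hz ⊢
        refine ⟨?_, hz.2⟩
        have := hz.1
        rw [hB, mem_filter] at this
        exact hE this.1
      exact_mod_cast this
  have h5 : 3 * s / (s / 16) = 48 := by field_simp; norm_num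
  rw [h5] at h4
  have h6 : (0:ℝ) ≤ M A x s := by positivity
  nlinarith

/-! ### sums over levels -/

/-- `∑_{j ≤ N} min(1, c R^j)` -/
theorem geom_min (R c : ℝ) (hR : 2 ≤ R) (hc : 0 < c) (N : ℕ) :
    ∑ j ∈ range (N + 1), min 1 (c * R ^ j) ≤
      2 * min 1 (c * R ^ N) + max 0 (1 + Real.log (c * R ^ N) / Real.log R) := by
  have hR0 : 0 < R := by linarith
  have hlR : 0 < Real.log R := Real.log_pos (by linarith)
  induction N with
  | zero =>
    simp only [zero_add, range_one, sum_singleton, pow_zero, mul_one]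
    have h1 : 0 ≤ min 1 c := le_min zero_le_one hc.le
    have h2 := le_max_left 0 (1 + Real.log c / Real.log R)
    linarith
  | succ N ih =>
    rw [sum_range_succ]
    set z := c * R ^ N with hz
    have hz0 : 0 < z := by positivity
    have hz' : c * R ^ (N + 1) = R * z := by rw [hz, pow_succ]; ring
    rw [hz']
    have hlog : Real.log (R * z) / Real.log R = 1 + Real.log z / Real.log R := by
      rw [Real.log_mul hR0.ne' hz0.ne', add_div, div_self hlR.ne']
    rw [hlog]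
    rcases le_or_gt 1 z with h1 | h1
    · have h2 : 0 ≤ Real.log z / Real.log R := div_nonneg (Real.log_nonneg h1) hlR.le
      have h3 : min 1 z = 1 := min_eq_left h1
      have h4 : min 1 (R * z) = 1 := min_eq_left (by nlinarith)
      rw [h3, max_eq_right (by linarith)] at ih
      rw [h4, max_eq_right (by linarith)]
      linarith
    · have h3 : min 1 z = z := min_eq_right h1.le
      rw [h3] at ih
      rcases le_or_gt 1 (R * z) with h5 | h5
      · have h4 : min 1 (R * z) = 1 := min_eq_left h5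
        have h6 : 0 ≤ Real.log (R * z) / Real.log R := div_nonneg (Real.log_nonneg h5) hlR.le
        rw [hlog] at h6
        rw [max_eq_right (by linarith)] at ih
        rw [h4, max_eq_right (by linarith)]
        linarith
      · have h4 : min 1 (R * z) = R * z := min_eq_right h5.le
        have h6 : Real.log (R * z) / Real.log R ≤ 0 :=
          div_nonpos_of_nonpos_of_nonneg (Real.log_nonpos (by positivity) h5.le) hlR.le
        rw [hlog] at h6
        rw [max_eq_left h6] at ih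
        rw [h4]
        have h7 := le_max_left 0 (1 + (1 + Real.log z / Real.log R))
        nlinarith

/-- the same restricted to `c R^j ≤ Z` -/
theorem geom_min' (R c Z : ℝ) (hR : 2 ≤ R) (hc : 0 < c) (hZ : 1 ≤ Z) (F : Finset ℕ)
    (hF : ∀ j ∈ F, c * R ^ j ≤ Z) :
    ∑ j ∈ F, min 1 (c * R ^ j) ≤ 3 + Real.log Z / Real.log R := by
  have hR0 : 0 < R := by linarith
  have hlR : 0 < Real.log R := Real.log_pos (by linarith)
  have hlZ : 0 ≤ Real.log Z / Real.log R := div_nonneg (Real.log_nonneg hZ) hlR.le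
  rcases F.eq_empty_or_nonempty with h | h
  · rw [h]; simp only [sum_empty]; linarith
  · set N := F.max' h with hN
    have hNF : N ∈ F := max'_mem F h
    have hsub : F ⊆ range (N + 1) := by
      intro j hj
      rw [mem_range]
      have := le_max' F j hj
      omega
    have h1 : ∑ j ∈ F, min 1 (c * R ^ j) ≤ ∑ j ∈ range (N + 1), min 1 (c * R ^ j) := by
      apply sum_le_sum_of_subset_of_nonneg hsub
      intro j _ _
      exact le_min zero_le_one (by positivity)
    have h2 := geom_min R c hR hc N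
    have h3 : min 1 (c * R ^ N) ≤ 1 := min_le_left _ _
    have h4 : max 0 (1 + Real.log (c * R ^ N) / Real.log R) ≤ 1 + Real.log Z / Real.log R := by
      apply max_le (by linarith)
      have := hF N hNF
      have h5 : Real.log (c * R ^ N) ≤ Real.log Z := Real.log_le_log (by positivity) this
      have h6 : Real.log (c * R ^ N) / Real.log R ≤ Real.log Z / Real.log R :=
        div_le_div_of_nonneg_right h5 hlR.le
      linarith
    linarith

/-- telescoping over finitely many integers -/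
theorem telesc (L : ℤ → ℝ) (a b : ℝ) (hmono : Monotone L) (ha : ∀ i, a ≤ L i) (hb : ∀ i, L i ≤ b)
    (I : Finset ℤ) : ∑ i ∈ I, (L (i + 2) - L (i - 4)) ≤ 6 * (b - a) := by
  obtain ⟨N, hN⟩ : ∃ N : ℕ, ∀ i ∈ I, -(N:ℤ) ≤ i ∧ i < N := by
    refine ⟨(∑ i ∈ I, i.natAbs) + 1, fun i hi => ?_⟩
    have : i.natAbs ≤ ∑ i ∈ I, i.natAbs := single_le_sum (f := fun i : ℤ => i.natAbs) (fun _ _ => Nat.zero_le _) hi
    constructor <;> omega
  have hsub : I ⊆ (range (2 * N)).image (fun j : ℕ => (j:ℤ) - N) := by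
    intro i hi
    rw [mem_image]
    obtain ⟨h1, h2⟩ := hN i hi
    refine ⟨(i + N).toNat, ?_, ?_⟩
    · rw [mem_range]; omega
    · omega
  have h1 : ∑ i ∈ I, (L (i + 2) - L (i - 4)) ≤
      ∑ i ∈ (range (2 * N)).image (fun j : ℕ => (j:ℤ) - N), (L (i + 2) - L (i - 4)) := by
    apply sum_le_sum_of_subset_of_nonneg hsub
    intro i _ _
    have := hmono (show i - 4 ≤ i + 2 by omega)
    linarith
  refine h1.trans ?_
  rw [sum_image (fun a _ b _ h => by simpa using h)]
  have h2 : ∀ c : ℤ, ∑ j ∈ range (2 * N), (L ((j:ℤ) - N + c + 1) - L ((j:ℤ) - N + c)) ≤ b - a := by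
    intro c
    have := Finset.sum_range_sub (fun j : ℕ => L ((j:ℤ) - N + c)) (2 * N)
    have h3 : ∑ j ∈ range (2 * N), (L ((j:ℤ) - N + c + 1) - L ((j:ℤ) - N + c)) =
        ∑ j ∈ range (2 * N), (L (((j + 1 : ℕ):ℤ) - N + c) - L ((j:ℤ) - N + c)) := by
      apply sum_congr rfl
      intro j _
      congr 2
      push_cast; ring
    rw [h3, this]
    have h4 := hb (((2 * N : ℕ):ℤ) - N + c)
    have h5 := ha (((0 : ℕ):ℤ) - N + c)
    linarith
  have h3 : ∑ j ∈ range (2 * N), (L ((j:ℤ) - N + 2) - L ((j:ℤ) - N - 4)) =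
      ∑ j ∈ range (2 * N), (L ((j:ℤ) - N + (-4) + 1) - L ((j:ℤ) - N + (-4))) +
      ∑ j ∈ range (2 * N), (L ((j:ℤ) - N + (-3) + 1) - L ((j:ℤ) - N + (-3))) +
      ∑ j ∈ range (2 * N), (L ((j:ℤ) - N + (-2) + 1) - L ((j:ℤ) - N + (-2))) +
      ∑ j ∈ range (2 * N), (L ((j:ℤ) - N + (-1) + 1) - L ((j:ℤ) - N + (-1))) +
      ∑ j ∈ range (2 * N), (L ((j:ℤ) - N + 0 + 1) - L ((j:ℤ) - N + 0)) +
      ∑ j ∈ range (2 * N), (L ((j:ℤ) - N + 1 + 1) - L ((j:ℤ) - N + 1)) := by
    rw [← sum_add_distrib, ← sum_add_distrib, ← sum_add_distrib, ← sum_add_distrib, ← sum_add_distrib]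
    apply sum_congr rfl
    intro j _
    have e1 : (j:ℤ) - N + (-4) + 1 = (j:ℤ) - N + (-3) := by ring
    have e2 : (j:ℤ) - N + (-3) + 1 = (j:ℤ) - N + (-2) := by ring
    have e3 : (j:ℤ) - N + (-2) + 1 = (j:ℤ) - N + (-1) := by ring
    have e4 : (j:ℤ) - N + (-1) + 1 = (j:ℤ) - N + 0 := by ring
    have e5 : (j:ℤ) - N + 1 + 1 = (j:ℤ) - N + 2 := by ring
    have e6 : (j:ℤ) - N + 0 + 1 = (j:ℤ) - N + 1 := by ring
    have e7 : (j:ℤ) - N + (-4) = (j:ℤ) - N - 4 := by ring
    rw [e1, e2, e3, e4, e5, e6, e7]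
    ring
  rw [h3]
  have := h2 (-4)
  have := h2 (-3)
  have := h2 (-2)
  have := h2 (-1)
  have := h2 0
  have := h2 1
  linarith

/-! ### one level, one exponent -/

theorem lacS (hC : CoverSum) (A : Finset ℂ) (R Q μ : ℝ) (hQ : 100 ≤ Q) (hR : 0 < R) (hμ : 0 < μ)
    (y : ℂ) (a : ℝ) (ha : 0 < a) (i : ℤ) (k j : ℕ) (S : Finset (ℂ × ℕ)) (sf : ℂ × ℕ → ℝ)
    (h0 : ∀ t ∈ S, t.1 ∈ A) (hj : ∀ t ∈ S, t.2 = j)
    (hs : ∀ t ∈ S, (2:ℝ) ^ i ≤ sf t ∧ sf t < 2 ^ (i + 1))
    (h1 : ∀ t ∈ S, R * Q ^ k * (μ * R ^ j) ≤ (M A t.1 (sf t) : ℝ))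
    (h2 : ∀ t ∈ S, a ≤ Q * (M A t.1 (sf t) : ℝ))
    (h4 : ∀ t ∈ S, ∀ r : ℝ, r < sf t / 2 ^ (k + 1) → (M A t.1 r : ℝ) < μ * R ^ j)
    (h5 : ∀ t ∈ S, dist t.1 y ≤ sf t) :
    ∑ t ∈ S, (1:ℝ) / (M A t.1 (sf t) : ℝ) ≤
      676 * (4 / Q) ^ k / R * min 1 (R * Q ^ (k + 1) * μ / a * R ^ j) := by
  have hQ0 : 0 < Q := by linarith
  have h2i : (0:ℝ) < 2 ^ i := by positivity
  have h2i1 : (2:ℝ) ^ (i + 1) = 2 ^ i * 2 := by rw [zpow_add₀ (by norm_num)]; norm_num
  have hinj : Set.InjOn (fun t : ℂ × ℕ => t.1) (S : Set (ℂ × ℕ)) := by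
    intro t ht u hu h
    exact Prod.ext h ((hj t ht).trans (hj u hu).symm)
  have hcard : ((S.image (fun t => t.1)).card : ℝ) = S.card := by
    rw [card_image_of_injOn hinj]
  have hb : ((S.image (fun t => t.1)).card : ℝ) ≤
      (μ * R ^ j) * (3 * 2 ^ (i + 1) / (2 ^ i / 2 ^ (k + 2)) + 2) ^ 2 := by
    apply cover_card5 hC _ y _ _ _ (by positivity) (by positivity)
    · intro x hx
      rw [mem_image] at hx
      obtain ⟨t, ht, rfl⟩ := hx
      exact (h5 t ht).trans (hs t ht).2.le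
    · intro x hx
      rw [mem_image] at hx
      obtain ⟨t, ht, rfl⟩ := hx
      have h6 : (2:ℝ) ^ i / 2 ^ (k + 2) < sf t / 2 ^ (k + 1) := by
        have h7 : (2:ℝ) ^ i / 2 ^ (k + 2) < 2 ^ i / 2 ^ (k + 1) := by
          apply div_lt_div_of_pos_left h2i (by positivity)
          exact pow_lt_pow_right₀ (by norm_num) (by omega)
        have h8 : (2:ℝ) ^ i / 2 ^ (k + 1) ≤ sf t / 2 ^ (k + 1) :=
          div_le_div_of_nonneg_right (hs t ht).1 (by positivity)
        linarith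
      refine le_trans ?_ (h4 t ht _ h6).le
      have h9 : ((S.image (fun t => t.1)).filter (fun z => dist z t.1 ≤ 2 ^ i / 2 ^ (k + 2))).card ≤
          M A t.1 (2 ^ i / 2 ^ (k + 2)) := by
        unfold M
        apply card_le_card
        intro z hz
        rw [mem_filter] at hz ⊢
        refine ⟨?_, hz.2⟩
        have h10 := hz.1
        rw [mem_image] at h10
        obtain ⟨u, hu, rfl⟩ := h10
        exact h0 u hu
      exact_mod_cast h9
  have hsimp : 3 * (2:ℝ) ^ (i + 1) / (2 ^ i / 2 ^ (k + 2)) = 24 * 2 ^ k := by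
    rw [h2i1]
    have : (2:ℝ) ^ (k + 2) = 4 * 2 ^ k := by rw [pow_add]; ring
    rw [this]
    field_simp
    ring
  have h2k : (1:ℝ) ≤ 2 ^ k := one_le_pow₀ (by norm_num)
  have h4k : ((2:ℝ) ^ k) ^ 2 = 4 ^ k := by rw [← pow_mul, mul_comm, pow_mul]; norm_num
  have hSc : (S.card : ℝ) ≤ 676 * 4 ^ k * (μ * R ^ j) := by
    rw [← hcard]
    refine hb.trans ?_
    rw [hsimp]
    have h6 : (24 * (2:ℝ) ^ k + 2) ^ 2 ≤ 676 * 4 ^ k := by
      rw [← h4k]; nlinarith
    calc μ * R ^ j * (24 * 2 ^ k + 2) ^ 2 ≤ μ * R ^ j * (676 * 4 ^ k) :=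
          mul_le_mul_of_nonneg_left h6 (by positivity)
      _ = _ := by ring
  have hpos : ∀ t ∈ S, (0:ℝ) < (M A t.1 (sf t) : ℝ) := by
    intro t ht
    exact lt_of_lt_of_le (by positivity) (h1 t ht)
  rw [mul_min_of_nonneg _ _ (by positivity)]
  apply le_min
  · have h6 : ∑ t ∈ S, (1:ℝ) / (M A t.1 (sf t) : ℝ) ≤ ∑ t ∈ S, 1 / (R * Q ^ k * (μ * R ^ j)) := by
      apply sum_le_sum
      intro t ht
      exact one_div_le_one_div_of_le (by positivity) (h1 t ht)
    refine h6.trans ?_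
    rw [sum_const, nsmul_eq_mul]
    calc (S.card : ℝ) * (1 / (R * Q ^ k * (μ * R ^ j)))
        ≤ 676 * 4 ^ k * (μ * R ^ j) * (1 / (R * Q ^ k * (μ * R ^ j))) :=
          mul_le_mul_of_nonneg_right hSc (by positivity)
      _ = _ := by
        rw [div_pow]; field_simp
  · have h6 : ∑ t ∈ S, (1:ℝ) / (M A t.1 (sf t) : ℝ) ≤ ∑ t ∈ S, Q / a := by
      apply sum_le_sum
      intro t ht
      rw [div_le_div_iff₀ (hpos t ht) ha]
      have := h2 t ht
      linarith
    refine h6.trans ?_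
    rw [sum_const, nsmul_eq_mul]
    calc (S.card : ℝ) * (Q / a) ≤ 676 * 4 ^ k * (μ * R ^ j) * (Q / a) :=
          mul_le_mul_of_nonneg_right hSc (by positivity)
      _ = _ := by
        rw [div_pow, pow_succ]; field_simp

theorem lacD (hC : CoverSum) (A : Finset ℂ) (R Q μ : ℝ) (hQ : 100 ≤ Q) (hR : R = Q ^ 10) (hμ : 0 < μ)
    (y : ℂ) (hy : y ∈ A) (i : ℤ) (T : Finset (ℂ × ℕ)) (kf : ℂ × ℕ → ℕ) (sf : ℂ × ℕ → ℝ)
    (h0 : ∀ t ∈ T, t.1 ∈ A)
    (hs : ∀ t ∈ T, (2:ℝ) ^ i ≤ sf t ∧ sf t < 2 ^ (i + 1))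
    (h1 : ∀ t ∈ T, R * Q ^ (kf t) * (μ * R ^ t.2) ≤ (M A t.1 (sf t) : ℝ))
    (h2 : ∀ t ∈ T, (M A t.1 (2 * sf t) : ℝ) ≤ Q * (M A t.1 (sf t) : ℝ))
    (h4 : ∀ t ∈ T, ∀ r : ℝ, r < sf t / 2 ^ (kf t + 1) → (M A t.1 r : ℝ) < μ * R ^ t.2)
    (h5 : ∀ t ∈ T, dist t.1 y ≤ sf t) :
    ∑ t ∈ T, (1:ℝ) / (M A t.1 (sf t) : ℝ) ≤
      1352 / R * (4 + Real.log ((M A y (2 ^ (i + 2)) : ℝ) / (M A y (2 ^ i) : ℝ)) / Real.log R) := by
  have hQ0 : 0 < Q := by linarith
  have hQR : Q ≤ R := by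
    rw [hR]
    calc Q = Q ^ 1 := (pow_one Q).symm
      _ ≤ Q ^ 10 := pow_le_pow_right₀ (by linarith) (by norm_num)
  have hR0 : 0 < R := by linarith
  have hlR : 0 < Real.log R := Real.log_pos (by linarith)
  set a : ℝ := (M A y (2 ^ i) : ℝ) with ha
  set b : ℝ := (M A y (2 ^ (i + 2)) : ℝ) with hb
  have ha1 : 1 ≤ a := by
    rw [ha]; exact_mod_cast one_le_M5 A y hy (by positivity)
  have hab : a ≤ b := by
    rw [ha, hb]
    have : M A y (2 ^ i) ≤ M A y (2 ^ (i + 2)) := M_mono5 A y (zpow_le_zpow_right₀ (by norm_num) (by omega))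
    exact_mod_cast this
  have ha0 : 0 < a := by linarith
  have hb0 : 0 < b := by linarith
  have haM : ∀ t ∈ T, a ≤ Q * (M A t.1 (sf t) : ℝ) := by
    intro t ht
    refine le_trans ?_ (h2 t ht)
    rw [ha]
    have : M A y (2 ^ i) ≤ M A t.1 (2 * sf t) := by
      apply M_ball5
      have h6 := h5 t ht
      have h7 := (hs t ht).1
      rw [dist_comm]
      linarith
    exact_mod_cast this
  have hMb : ∀ t ∈ T, (M A t.1 (sf t) : ℝ) ≤ b := by
    intro t ht
    rw [hb]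
    have : M A t.1 (sf t) ≤ M A y (2 ^ (i + 2)) := by
      apply M_ball5
      have h6 := h5 t ht
      have h7 := (hs t ht).2
      have h8 : (2:ℝ) ^ (i + 2) = 2 * 2 ^ (i + 1) := by
        rw [show i + 2 = 1 + (i + 1) by ring, zpow_add₀ (by norm_num : (2:ℝ) ≠ 0)]; norm_num
      linarith
    exact_mod_cast this
  set Z : ℝ := 4 + Real.log (b / a) / Real.log R with hZ
  have hZ0 : 0 ≤ Z := by
    have : 0 ≤ Real.log (b / a) / Real.log R :=
      div_nonneg (Real.log_nonneg (by rw [le_div_iff₀ ha0]; linarith)) hlR.le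
    linarith
  -- split according to the exponent
  have hk : ∀ k : ℕ, ∑ t ∈ T.filter (fun t => kf t = k), (1:ℝ) / (M A t.1 (sf t) : ℝ) ≤
      676 / R * Z * (1 / 2) ^ k := by
    intro k
    set Tk := T.filter (fun t => kf t = k) with hTk
    rw [← sum_fiberwise_of_maps_to (s := Tk) (t := Tk.image (fun t => t.2)) (g := fun t => t.2)
      (fun t ht => mem_image_of_mem _ ht)]
    have h6 : ∀ j ∈ Tk.image (fun t => t.2), ∑ t ∈ Tk.filter (fun t => t.2 = j), (1:ℝ) / (M A t.1 (sf t) : ℝ) ≤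
        676 * (4 / Q) ^ k / R * min 1 (R * Q ^ (k + 1) * μ / a * R ^ j) := by
      intro j _
      apply lacS hC A R Q μ hQ hR0 hμ y a ha0 i k j _ sf
      · intro t ht
        simp only [hTk, mem_filter] at ht
        exact h0 t ht.1.1
      · intro t ht
        simp only [hTk, mem_filter] at ht
        exact ht.2
      · intro t ht
        simp only [hTk, mem_filter] at ht
        exact hs t ht.1.1
      · intro t ht
        simp only [hTk, mem_filter] at ht
        have := h1 t ht.1.1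
        rw [ht.1.2, ht.2] at this
        exact this
      · intro t ht
        simp only [hTk, mem_filter] at ht
        exact haM t ht.1.1
      · intro t ht
        simp only [hTk, mem_filter] at ht
        have := h4 t ht.1.1
        rw [ht.1.2, ht.2] at this
        exact this
      · intro t ht
        simp only [hTk, mem_filter] at ht
        exact h5 t ht.1.1
    refine (sum_le_sum h6).trans ?_
    rw [← mul_sum]
    have h7 : ∑ j ∈ Tk.image (fun t => t.2), min 1 (R * Q ^ (k + 1) * μ / a * R ^ j) ≤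
        3 + Real.log (Q * (b / a)) / Real.log R := by
      apply geom_min' R _ _ (by linarith) (by positivity)
      · have : 1 ≤ b / a := by rw [le_div_iff₀ ha0]; linarith
        nlinarith
      · intro j hj
        rw [mem_image] at hj
        obtain ⟨t, ht, rfl⟩ := hj
        rw [hTk, mem_filter] at ht
        have h8 := (h1 t ht.1).trans (hMb t ht.1)
        rw [ht.2] at h8
        have h9 : R * Q ^ (k + 1) * μ / a * R ^ t.2 = Q / a * (R * Q ^ k * (μ * R ^ t.2)) := by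
          rw [pow_succ]; ring
        rw [h9]
        calc Q / a * (R * Q ^ k * (μ * R ^ t.2)) ≤ Q / a * b := mul_le_mul_of_nonneg_left h8 (by positivity)
          _ = Q * (b / a) := by ring
    have h8 : Real.log (Q * (b / a)) / Real.log R ≤ 1 + Real.log (b / a) / Real.log R := by
      rw [Real.log_mul hQ0.ne' (by positivity), add_div]
      have : Real.log Q / Real.log R ≤ 1 := by
        rw [div_le_one hlR]
        exact Real.log_le_log hQ0 hQR
      linarith
    have h9 : ((4:ℝ) / Q) ^ k ≤ (1 / 2) ^ k := by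
      apply pow_le_pow_left₀ (by positivity)
      rw [div_le_div_iff₀ hQ0 (by norm_num)]
      linarith
    calc 676 * (4 / Q) ^ k / R * ∑ j ∈ Tk.image (fun t => t.2), min 1 (R * Q ^ (k + 1) * μ / a * R ^ j)
        ≤ 676 * (4 / Q) ^ k / R * Z := by
          apply mul_le_mul_of_nonneg_left _ (by positivity)
          rw [hZ]; linarith
      _ = 676 / R * Z * (4 / Q) ^ k := by ring
      _ ≤ 676 / R * Z * (1 / 2) ^ k := mul_le_mul_of_nonneg_left h9 (by positivity)
  rw [← sum_fiberwise_of_maps_to (s := T) (t := T.image kf) (g := kf) (fun t ht => mem_image_of_mem _ ht)]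
  refine (sum_le_sum (fun k _ => hk k)).trans ?_
  rw [← mul_sum]
  have h10 : ∑ k ∈ T.image kf, ((1:ℝ) / 2) ^ k ≤ 2 := by
    have hsub : T.image kf ⊆ range ((T.image kf).sup id + 1) := by
      intro k hk'
      rw [mem_range]
      have := le_sup (f := id) hk'
      simp only [id] at this
      omega
    refine (sum_le_sum_of_subset_of_nonneg hsub (fun k _ _ => by positivity)).trans ?_
    exact sum_geometric_two_le _
  calc 676 / R * Z * ∑ k ∈ T.image kf, ((1:ℝ) / 2) ^ k ≤ 676 / R * Z * 2 :=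
        mul_le_mul_of_nonneg_left h10 (by positivity)
    _ = 1352 / R * Z := by ring

/-- everything charged to one point `y` -/
theorem lacY (hC : CoverSum) (A : Finset ℂ) (R Q η g μ : ℝ) (J : ℕ) (hη : 0 < η) (hη1 : η ≤ 1)
    (hg : 0 < g) (hg1 : g ≤ 1) (hQ : 100 / η ≤ Q) (hR : R = Q ^ 10) (hμ : 3 ≤ μ)
    (hcard : μ * R ^ J = A.card)
    (y : ℂ) (hy : y ∈ A) (T : Finset (ℂ × ℕ)) (kf : ℂ × ℕ → ℕ) (sf : ℂ × ℕ → ℝ)
    (h0 : ∀ t ∈ T, t.1 ∈ A) (hs : ∀ t ∈ T, 0 < sf t)
    (h1 : ∀ t ∈ T, R * Q ^ (kf t) * (μ * R ^ t.2) ≤ (M A t.1 (sf t) : ℝ))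
    (h2 : ∀ t ∈ T, (M A t.1 (2 * sf t) : ℝ) ≤ Q * (M A t.1 (sf t) : ℝ))
    (h4 : ∀ t ∈ T, ∀ r : ℝ, r < sf t / 2 ^ (kf t + 1) → (M A t.1 r : ℝ) < μ * R ^ t.2)
    (h5 : ∀ t ∈ T, dist t.1 y ≤ sf t)
    (h6 : ∀ t ∈ T, η / 20000 * (M A t.1 (sf t) : ℝ) ≤ (M A y (sf t / 16) : ℝ))
    (h7 : ∀ t ∈ T, (1 + g) * (M A y (sf t / 16) : ℝ) ≤ (M A y (9 * sf t / 8) : ℝ)) :
    ∑ t ∈ T, (1:ℝ) / (M A t.1 (sf t) : ℝ) ≤ 73008 / (g * R) * (J * Real.log R) := by
  have hQ100 : 100 ≤ Q := by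
    have : 100 ≤ 100 / η := by rw [le_div_iff₀ hη]; linarith
    linarith
  have hQη : 100 ≤ η * Q := by
    rw [div_le_iff₀ hη] at hQ
    linarith
  have hQ0 : 0 < Q := by linarith
  have hR0 : 0 < R := by rw [hR]; positivity
  have hRη : 20000 ≤ η * R := by
    have h8 : (1000:ℝ) ≤ Q ^ 9 := by
      calc (1000:ℝ) ≤ 100 ^ 9 := by norm_num
        _ ≤ Q ^ 9 := pow_le_pow_left₀ (by norm_num) hQ100 9
    have h9 : η * R = (η * Q) * Q ^ 9 := by rw [hR]; ring
    rw [h9]
    nlinarith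
  have hR1 : 1 ≤ R := by
    rw [hR]; exact one_le_pow₀ (by linarith)
  have hlR1 : 1 ≤ Real.log R := by
    rw [hR, Real.log_pow]
    have : 1 ≤ Real.log Q := by
      rw [Real.le_log_iff_exp_le hQ0]
      have := Real.exp_one_lt_d9
      linarith
    push_cast
    linarith
  have hlR : 0 < Real.log R := by linarith
  have hμ0 : 0 < μ := by linarith
  set L : ℤ → ℝ := fun i => max (Real.log (M A y (2 ^ i) : ℝ)) (Real.log μ) with hL
  have hM1 : ∀ r : ℝ, 0 ≤ r → (1:ℝ) ≤ (M A y r : ℝ) := by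
    intro r hr
    exact_mod_cast one_le_M5 A y hy hr
  have hLmono : Monotone L := by
    intro i i' h
    simp only [hL]
    apply max_le_max _ le_rfl
    apply Real.log_le_log (by have := hM1 (2 ^ i) (by positivity); linarith)
    exact_mod_cast M_mono5 A y (zpow_le_zpow_right₀ (by norm_num) h)
  have hLa : ∀ i, Real.log μ ≤ L i := fun i => le_max_right _ _
  have hLb : ∀ i, L i ≤ Real.log A.card := by
    intro i
    simp only [hL]
    apply max_le
    · apply Real.log_le_log (by have := hM1 (2 ^ i) (by positivity); linarith)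
      exact_mod_cast M_le_card5 A y _
    · apply Real.log_le_log hμ0
      rw [← hcard]
      have : 1 ≤ R ^ J := one_le_pow₀ hR1
      nlinarith
  have hdiff : Real.log A.card - Real.log μ = J * Real.log R := by
    rw [← hcard, Real.log_mul hμ0.ne' (by positivity), Real.log_pow]
    ring
  rw [← sum_fiberwise_of_maps_to (s := T) (t := T.image (fun t => Int.log 2 (sf t)))
    (g := fun t => Int.log 2 (sf t)) (fun t ht => mem_image_of_mem _ ht)]
  have hmain : ∀ i ∈ T.image (fun t => Int.log 2 (sf t)),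
      ∑ t ∈ T.filter (fun t => Int.log 2 (sf t) = i), (1:ℝ) / (M A t.1 (sf t) : ℝ) ≤
        12168 / (g * R) * (L (i + 2) - L (i - 4)) := by
    intro i hi
    have hscale : ∀ t ∈ T, Int.log 2 (sf t) = i → (2:ℝ) ^ i ≤ sf t ∧ sf t < 2 ^ (i + 1) := by
      intro t ht hti
      have h8 := Int.zpow_log_le_self (b := 2) (by norm_num) (hs t ht)
      have h9 := Int.lt_zpow_succ_log_self (b := 2) (by norm_num) (sf t)
      rw [hti] at h8 h9
      exact ⟨by exact_mod_cast h8, by exact_mod_cast h9⟩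
    have hD := lacD hC A R Q μ hQ100 hR hμ0 y hy i (T.filter (fun t => Int.log 2 (sf t) = i)) kf sf
      (fun t ht => h0 t (mem_filter.mp ht).1)
      (fun t ht => hscale t (mem_filter.mp ht).1 (mem_filter.mp ht).2)
      (fun t ht => h1 t (mem_filter.mp ht).1)
      (fun t ht => h2 t (mem_filter.mp ht).1)
      (fun t ht => h4 t (mem_filter.mp ht).1)
      (fun t ht => h5 t (mem_filter.mp ht).1)
    refine hD.trans ?_
    rw [mem_image] at hi
    obtain ⟨t, ht, hti⟩ := hi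
    obtain ⟨hsi, hsi'⟩ := hscale t ht hti
    have h2i : (0:ℝ) < 2 ^ i := by positivity
    -- lower bound for the small disc
    have hlow : μ ≤ (M A y (sf t / 16) : ℝ) := by
      refine le_trans ?_ (h6 t ht)
      have h8 := h1 t ht
      have h9 : R * μ ≤ R * Q ^ (kf t) * (μ * R ^ t.2) := by
        have e1 : 1 ≤ Q ^ (kf t) := one_le_pow₀ (by linarith)
        have e2 : 1 ≤ R ^ t.2 := one_le_pow₀ hR1
        have e3 : R * Q ^ (kf t) * (μ * R ^ t.2) = R * μ * (Q ^ (kf t) * R ^ t.2) := by ring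
        rw [e3]
        have e4 : 1 ≤ Q ^ (kf t) * R ^ t.2 := one_le_mul_of_one_le_of_one_le e1 e2
        have e5 : 0 ≤ R * μ := by positivity
        nlinarith
      have h10 : R * μ ≤ (M A t.1 (sf t) : ℝ) := h9.trans h8
      have h11 : η / 20000 * (R * μ) ≤ η / 20000 * (M A t.1 (sf t) : ℝ) :=
        mul_le_mul_of_nonneg_left h10 (by positivity)
      have h12 : 20000 * μ ≤ η * R * μ := mul_le_mul_of_nonneg_right hRη hμ0.le
      linarith
    have hz4 : (2:ℝ) ^ (i - 4) = 2 ^ i / 16 := by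
      rw [zpow_sub₀ (by norm_num)]; norm_num
    have hz2 : (2:ℝ) ^ (i + 2) = 4 * 2 ^ i := by
      rw [zpow_add₀ (by norm_num)]; norm_num; ring
    have hz1 : (2:ℝ) ^ (i + 1) = 2 * 2 ^ i := by
      rw [zpow_add₀ (by norm_num)]; norm_num; ring
    have hsmall : (M A y (2 ^ (i - 4)) : ℝ) ≤ (M A y (sf t / 16) : ℝ) := by
      have : M A y (2 ^ (i - 4)) ≤ M A y (sf t / 16) := M_mono5 A y (by rw [hz4]; linarith)
      exact_mod_cast this
    have hbig : (M A y (9 * sf t / 8) : ℝ) ≤ (M A y (2 ^ (i + 2)) : ℝ) := by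
      have : M A y (9 * sf t / 8) ≤ M A y (2 ^ (i + 2)) := M_mono5 A y (by rw [hz2]; linarith)
      exact_mod_cast this
    have hsi16 : (M A y (sf t / 16) : ℝ) ≤ (M A y (2 ^ i) : ℝ) := by
      have : M A y (sf t / 16) ≤ M A y (2 ^ i) := M_mono5 A y (by linarith)
      exact_mod_cast this
    have hMs : (0:ℝ) < (M A y (sf t / 16) : ℝ) := by linarith
    have hL4 : L (i - 4) ≤ Real.log (M A y (sf t / 16) : ℝ) := by
      simp only [hL]
      apply max_le
      · apply Real.log_le_log _ hsmall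
        have := hM1 (2 ^ (i - 4)) (by positivity); linarith
      · exact Real.log_le_log hμ0 hlow
    have hL2 : Real.log (1 + g) + Real.log (M A y (sf t / 16) : ℝ) ≤ L (i + 2) := by
      refine le_trans ?_ (le_max_left _ _)
      rw [← Real.log_mul (by linarith) hMs.ne']
      apply Real.log_le_log (by positivity)
      exact (h7 t ht).trans hbig
    have hlg : g / 2 ≤ Real.log (1 + g) := by
      have h8 := Real.one_sub_inv_le_log_of_pos (show 0 < 1 + g by linarith)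
      have h9 : g / 2 ≤ 1 - (1 + g)⁻¹ := by
        rw [← sub_nonneg]
        have : 1 - (1 + g)⁻¹ - g / 2 = g * (1 - g) / (2 * (1 + g)) := by
          field_simp; ring
        rw [this]
        apply div_nonneg (mul_nonneg hg.le (by linarith)) (by linarith)
      linarith
    have hev : g / 2 ≤ L (i + 2) - L (i - 4) := by linarith
    -- growth
    have ha0 : (0:ℝ) < (M A y (2 ^ i) : ℝ) := by linarith
    have hb0 : (0:ℝ) < (M A y (2 ^ (i + 2)) : ℝ) := by
      have := hM1 (2 ^ (i + 2)) (by positivity); linarith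
    have hLi : L i = Real.log (M A y (2 ^ i) : ℝ) := by
      simp only [hL]
      exact max_eq_left (Real.log_le_log hμ0 (hlow.trans hsi16))
    have hgr : Real.log ((M A y (2 ^ (i + 2)) : ℝ) / (M A y (2 ^ i) : ℝ)) ≤ L (i + 2) - L (i - 4) := by
      rw [Real.log_div hb0.ne' ha0.ne', ← hLi]
      have h8 : Real.log (M A y (2 ^ (i + 2)) : ℝ) ≤ L (i + 2) := le_max_left _ _
      have h9 := hLmono (show i - 4 ≤ i by omega)
      linarith
    set Δ := L (i + 2) - L (i - 4) with hΔ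
    have hΔ0 : 0 ≤ Δ := by linarith
    have h8 : Real.log ((M A y (2 ^ (i + 2)) : ℝ) / (M A y (2 ^ i) : ℝ)) / Real.log R ≤ Δ := by
      rw [div_le_iff₀ hlR]
      nlinarith
    have h9 : 4 ≤ 8 / g * Δ := by
      have : 8 / g * (g / 2) = 4 := by field_simp; norm_num
      calc (4:ℝ) = 8 / g * (g / 2) := this.symm
        _ ≤ 8 / g * Δ := mul_le_mul_of_nonneg_left hev (by positivity)
    have h10 : Δ ≤ 1 / g * Δ := by
      have : 1 ≤ 1 / g := by rw [le_div_iff₀ hg]; linarith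
      nlinarith
    have h11 : 4 + Real.log ((M A y (2 ^ (i + 2)) : ℝ) / (M A y (2 ^ i) : ℝ)) / Real.log R ≤ 9 / g * Δ := by
      have : 9 / g * Δ = 8 / g * Δ + 1 / g * Δ := by ring
      linarith
    calc 1352 / R * (4 + Real.log ((M A y (2 ^ (i + 2)) : ℝ) / (M A y (2 ^ i) : ℝ)) / Real.log R)
        ≤ 1352 / R * (9 / g * Δ) := mul_le_mul_of_nonneg_left h11 (by positivity)
      _ = 12168 / (g * R) * Δ := by field_simp; norm_num; ring
  refine (sum_le_sum hmain).trans ?_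
  rw [← mul_sum]
  have htel := telesc L (Real.log μ) (Real.log A.card) hLmono hLa hLb (T.image (fun t => Int.log 2 (sf t)))
  rw [hdiff] at htel
  calc 12168 / (g * R) * ∑ i ∈ T.image (fun t => Int.log 2 (sf t)), (L (i + 2) - L (i - 4))
      ≤ 12168 / (g * R) * (6 * (J * Real.log R)) := mul_le_mul_of_nonneg_left htel (by positivity)
    _ = _ := by ring

theorem arith5 (η g R l u v : ℝ) (hη : 0 < η) (hg : 0 < g) (hR : 0 < R) :
    2 / η * (u * (73008 / (g * R) * (v * l))) = 146016 * (l / (η * g * R)) * u * v := by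
  field_simp
  ring

theorem lac_lemma_of (hC : CoverSum) : ∃ C : ℝ, 0 < C ∧ ∀ (η g R μ : ℝ) (J : ℕ) (A E₁ E₃ : Finset ℂ),
    0 < η → η ≤ 1 → 0 < g → g ≤ 1 → (100 / η) ^ 10 ≤ R → 3 ≤ μ → μ * R ^ J = A.card →
    E₁ ⊆ A → E₃ ⊆ A → NC A →
    (∀ x ∈ E₃, ∀ r : ℝ, 0 ≤ r → η * (M A x r : ℝ) ≤ ((E₁.filter (fun y => dist y x ≤ r)).card : ℝ)) →
    (∀ x ∈ E₃, ∀ y ∈ E₁, ∀ s : ℝ, 0 < s → s / 2 < dist x y → dist x y ≤ s →
      R * μ ≤ (M A x s : ℝ) → η / 20000 * (M A x s : ℝ) ≤ (M A y (s/16) : ℝ) →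
      (1 + g) * (M A y (s/16) : ℝ) ≤ (M A y (9 * s / 8) : ℝ)) →
    ∑ x ∈ E₃, (((range J).filter (fun j => Lac A R x (μ * R ^ j))).card : ℝ) ≤
      C * (Real.log R / (η * g * R)) * A.card * J := by
  refine ⟨146016, by norm_num, ?_⟩
  intro η g R μ J A E₁ E₃ hη hη1 hg hg1 hRη hμ hcard hE₁ hE₃ hNC hd hgrow
  have hR0 : 0 < R := lt_of_lt_of_le (by positivity) hRη
  set Q : ℝ := R ^ ((1:ℝ) / 10) with hQdef
  have hR : R = Q ^ 10 := by
    rw [hQdef, ← Real.rpow_natCast, ← Real.rpow_mul hR0.le]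
    norm_num
  have hQ0 : 0 < Q := by rw [hQdef]; positivity
  have hQ : 100 / η ≤ Q := by
    by_contra hcon
    push Not at hcon
    have : Q ^ 10 < (100 / η) ^ 10 := pow_lt_pow_left₀ hcon hQ0.le (by norm_num)
    linarith
  have hQ100 : 100 ≤ Q := by
    have : 100 ≤ 100 / η := by rw [le_div_iff₀ hη]; linarith
    linarith
  have hR1 : 1 ≤ R := by
    rw [hR]; exact one_le_pow₀ (by linarith)
  have hlR : 0 ≤ Real.log R := Real.log_nonneg hR1
  -- the set of lacunary pairs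
  set T : Finset (ℂ × ℕ) := (E₃ ×ˢ range J).filter (fun t => Lac A R t.1 (μ * R ^ t.2)) with hT
  have hLHS : ∑ x ∈ E₃, (((range J).filter (fun j => Lac A R x (μ * R ^ j))).card : ℝ) = T.card := by
    have h1 : T.card = ∑ x ∈ E₃, ((range J).filter (fun j => Lac A R x (μ * R ^ j))).card := by
      rw [hT, card_filter, sum_product]
      apply sum_congr rfl
      intro x _
      rw [card_filter]
    rw [h1]; push_cast; rfl
  rw [hLHS]
  have hm3 : ∀ j : ℕ, 3 ≤ μ * R ^ j := by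
    intro j
    have : 1 ≤ R ^ j := one_le_pow₀ hR1
    nlinarith
  have hex : ∀ t ∈ T, ∃ (k : ℕ) (s : ℝ), 0 < s ∧ R * Q ^ k * (μ * R ^ t.2) ≤ (M A t.1 s : ℝ) ∧
      (M A t.1 (2 * s) : ℝ) ≤ Q * (M A t.1 s : ℝ) ∧
      (M A t.1 (s / 2) : ℝ) ≤ η / 8 * (M A t.1 s : ℝ) ∧
      ∀ r : ℝ, r < s / 2 ^ (k + 1) → (M A t.1 r : ℝ) < μ * R ^ t.2 := by
    intro t ht
    rw [hT, mem_filter] at ht
    exact lacA A hNC t.1 R Q η (μ * R ^ t.2) hη hη1 hQ hR (hm3 _) ht.2
  choose! kf sf hsf hk1 hk2 hk3 hk4 using hex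
  have hTE : ∀ t ∈ T, t.1 ∈ E₃ := by
    intro t ht
    rw [hT, mem_filter, mem_product] at ht
    exact ht.1.1
  have hMpos : ∀ t ∈ T, (0:ℝ) < (M A t.1 (sf t) : ℝ) := by
    intro t ht
    exact lt_of_lt_of_le (by positivity) (hk1 t ht)
  set G : ℂ → ℂ × ℕ → Prop := fun y t => sf t / 2 < dist t.1 y ∧ dist t.1 y ≤ sf t ∧
      η / 20000 * (M A t.1 (sf t) : ℝ) ≤ (M A y (sf t / 16) : ℝ) with hG
  have hone : ∀ t ∈ T, (1:ℝ) ≤ 2 / η * ∑ y ∈ E₁, (if G y t then 1 / (M A t.1 (sf t) : ℝ) else 0) := by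
    intro t ht
    have h1 := lacB hC A E₁ hE₁ t.1 (sf t) η hη (hsf t ht) (hd t.1 (hTE t ht) (sf t) (hsf t ht).le) (hk3 t ht)
    have h2 : ∑ y ∈ E₁, (if G y t then 1 / (M A t.1 (sf t) : ℝ) else 0) =
        ((E₁.filter (fun y => G y t)).card : ℝ) * (1 / (M A t.1 (sf t) : ℝ)) := by
      rw [← sum_filter, sum_const, nsmul_eq_mul]
    rw [h2]
    have h3 : η / 2 * (M A t.1 (sf t) : ℝ) ≤ ((E₁.filter (fun y => G y t)).card : ℝ) := h1
    have h4 := hMpos t ht
    have h5 : 2 / η * (η / 2 * (M A t.1 (sf t) : ℝ) * (1 / (M A t.1 (sf t) : ℝ))) = 1 := by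
      field_simp
    calc (1:ℝ) = 2 / η * (η / 2 * (M A t.1 (sf t) : ℝ) * (1 / (M A t.1 (sf t) : ℝ))) := h5.symm
      _ ≤ _ := by
        apply mul_le_mul_of_nonneg_left _ (by positivity)
        exact mul_le_mul_of_nonneg_right h3 (by positivity)
  have hcardT : (T.card : ℝ) ≤ 2 / η * ∑ y ∈ E₁, ∑ t ∈ T.filter (fun t => G y t), 1 / (M A t.1 (sf t) : ℝ) := by
    calc (T.card : ℝ) = ∑ t ∈ T, (1:ℝ) := by simp
      _ ≤ ∑ t ∈ T, (2 / η * ∑ y ∈ E₁, (if G y t then 1 / (M A t.1 (sf t) : ℝ) else 0)) := sum_le_sum hone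
      _ = 2 / η * ∑ y ∈ E₁, ∑ t ∈ T.filter (fun t => G y t), 1 / (M A t.1 (sf t) : ℝ) := by
        rw [← mul_sum, sum_comm]
        congr 1
        apply sum_congr rfl
        intro y _
        exact (sum_filter (fun t => G y t) _).symm
  have hRμ : ∀ t ∈ T, R * μ ≤ (M A t.1 (sf t) : ℝ) := by
    intro t ht
    refine le_trans ?_ (hk1 t ht)
    have e1 : 1 ≤ Q ^ (kf t) := one_le_pow₀ (by linarith)
    have e2 : 1 ≤ R ^ t.2 := one_le_pow₀ hR1
    have e3 : R * Q ^ (kf t) * (μ * R ^ t.2) = R * μ * (Q ^ (kf t) * R ^ t.2) := by ring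
    rw [e3]
    have e4 : 1 ≤ Q ^ (kf t) * R ^ t.2 := one_le_mul_of_one_le_of_one_le e1 e2
    have e5 : 0 ≤ R * μ := by positivity
    nlinarith
  have hy : ∀ y ∈ E₁, ∑ t ∈ T.filter (fun t => G y t), 1 / (M A t.1 (sf t) : ℝ) ≤
      73008 / (g * R) * (J * Real.log R) := by
    intro y hyE
    apply lacY hC A R Q η g μ J hη hη1 hg hg1 hQ hR hμ hcard y (hE₁ hyE) _ kf sf
    · exact fun t ht => hE₃ (hTE t (mem_filter.mp ht).1)
    · exact fun t ht => hsf t (mem_filter.mp ht).1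
    · exact fun t ht => hk1 t (mem_filter.mp ht).1
    · exact fun t ht => hk2 t (mem_filter.mp ht).1
    · exact fun t ht => hk4 t (mem_filter.mp ht).1
    · exact fun t ht => (mem_filter.mp ht).2.2.1
    · exact fun t ht => (mem_filter.mp ht).2.2.2
    · intro t ht
      obtain ⟨ht1, ht2, ht3, ht4⟩ := mem_filter.mp ht
      exact hgrow t.1 (hTE t ht1) y hyE (sf t) (hsf t ht1) ht2 ht3 (hRμ t ht1) ht4
  have hE₁card : (E₁.card : ℝ) ≤ A.card := by exact_mod_cast card_le_card hE₁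
  calc (T.card : ℝ) ≤ 2 / η * ∑ y ∈ E₁, ∑ t ∈ T.filter (fun t => G y t), 1 / (M A t.1 (sf t) : ℝ) := hcardT
    _ ≤ 2 / η * ∑ y ∈ E₁, 73008 / (g * R) * (J * Real.log R) :=
        mul_le_mul_of_nonneg_left (sum_le_sum hy) (by positivity)
    _ = 2 / η * (E₁.card * (73008 / (g * R) * (J * Real.log R))) := by rw [sum_const, nsmul_eq_mul]
    _ ≤ 2 / η * (A.card * (73008 / (g * R) * (J * Real.log R))) := by
        apply mul_le_mul_of_nonneg_left _ (by positivity)
        exact mul_le_mul_of_nonneg_right hE₁card (by positivity)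
    _ = 146016 * (Real.log R / (η * g * R)) * A.card * J := by
        exact arith5 η g R _ _ _ hη hg hR0

end M5

/-- the lacunary lemma -/
theorem lac_lemma : ∃ C : ℝ, 0 < C ∧ ∀ (η g R μ : ℝ) (J : ℕ) (A E₁ E₃ : Finset ℂ),
    0 < η → η ≤ 1 → 0 < g → g ≤ 1 → (100 / η) ^ 10 ≤ R → 3 ≤ μ → μ * R ^ J = A.card →
    E₁ ⊆ A → E₃ ⊆ A → NC A →
    (∀ x ∈ E₃, ∀ r : ℝ, 0 ≤ r → η * (M A x r : ℝ) ≤ ((E₁.filter (fun y => dist y x ≤ r)).card : ℝ)) →
    (∀ x ∈ E₃, ∀ y ∈ E₁, ∀ s : ℝ, 0 < s → s / 2 < dist x y → dist x y ≤ s →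
      R * μ ≤ (M A x s : ℝ) → η / 20000 * (M A x s : ℝ) ≤ (M A y (s/16) : ℝ) →
      (1 + g) * (M A y (s/16) : ℝ) ≤ (M A y (9 * s / 8) : ℝ)) →
    ∑ x ∈ E₃, (((range J).filter (fun j => Lac A R x (μ * R ^ j))).card : ℝ) ≤
      C * (Real.log R / (η * g * R)) * A.card * J :=
  M5.lac_lemma_of (fun S c L s hs hS => cover_sum S c L s hs hS)

end

end Pool.Agent.DD
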